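import Mathlib
import Pool.Agent.U605.ST.Neg
import Pool.Agent.R355.CanDeg2
import Pool.Agent.TH442.NF.Orbit
import Pool.Agent.TH167.SH.Conv
import Pool.Agent.TH167.SH.Defs

set_option autoImplicit false

/-!
# Negative curves and multiplicities with a packed tail

Let `n ≥ 36` of the numbers `v i` be equal to `M`, `n ≤ 4 (√n - 5) M` (so `M` may be of the order
`√n / 4`), let `tail` be the set of the others which are at least `2`, and suppose that the squares of
the sizes `v i`, `i` in the tail, fit into a rectangle `T × H` which fits beside the `n` numbers `M`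
(`PackedTail`). Let `C` be a prime divisor, not exceptional, of genus `g` on the blow-up of the
complex projective plane at very general points.

* If finitely many quadratic transformations carry the class of `C` to a class `(e; u)` such that `u`
  has a packed tail then `C ^ 2 ≥ 0` and `C ^ 2 ≥ K C`, which is the same as `C ^ 2 ≥ g - 1`.
* If `C ^ 2 < 0` and `C` is not a `(-1)`-curve then every class in the orbit is the class `(e; u)` of
  a prime divisor, `u` has no packed tail, and `∑ v i (v i + 1) ≤ e (e + 3)` for all `v ≤ u` with a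
  packed tail.
-/

namespace Pool.Agent.Results.MP_3c83d0_ag.PackedTailOrbits

open MvPolynomial Pool.Agent.TH167 Pool.Agent.TH167.SHDefs

/-- The tail: the points whose multiplicity is at least `2` and different from `M`. -/
def tail {h : ℕ} (M : ℕ) (m : Fin h → ℕ) : Finset (Fin h) :=
  Finset.univ.filter fun i => 2 ≤ m i ∧ m i ≠ M

/-- The room beside `n` points of multiplicity `M`. -/
noncomputable def room (n M : ℕ) : ℝ := (3 * √(n : ℝ) - 5 - (n : ℝ) / (4 * M)) / 4

/-- `n ≥ 36` equal numbers `M`, numbers `0` and `1`, and a packed tail. -/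
def PackedTail {h : ℕ} (v : Fin h → ℕ) : Prop :=
  ∃ n M T H : ℕ, 36 ≤ n ∧ (Finset.univ.filter fun i => v i = M).card = n ∧
    (n : ℝ) ≤ 4 * (√(n : ℝ) - 5) * M ∧
    (∀ i ∈ tail M v, v i ≤ T) ∧ 2 * ∑ i ∈ tail M v, v i ^ 2 + T ^ 2 ≤ T * H ∧
    ((H ≤ 2 * M ∧ (T : ℝ) ≤ room n M) ∨ room n M * H ≤ (2 * room n M - T) * M) ∧
    ∑ i ∈ tail M v, (v i : ℝ) * (v i + 1) ≤ (√(n : ℝ) - 5) * M

/-- The reflection of the class `a = (d; w)`, `d H - ∑ w l E l`, in the class
`H - E (i 0) - E (i 1) - E (i 2)`. -/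
def reflect {s : ℕ} (i : Fin 3 → Fin s) (a : ℤ × (Fin s → ℤ)) : ℤ × (Fin s → ℤ) :=
  (a.1 + (a.1 - a.2 (i 0) - a.2 (i 1) - a.2 (i 2)),
    fun l => a.2 l + if l = i 0 ∨ l = i 1 ∨ l = i 2 then a.1 - a.2 (i 0) - a.2 (i 1) - a.2 (i 2)
      else 0)

/-- Finitely many reflections carry the class `a` to `b`. -/
def Carries {s : ℕ} (a b : ℤ × (Fin s → ℤ)) : Prop :=
  Relation.ReflTransGen
    (fun a b : ℤ × (Fin s → ℤ) => ∃ i : Fin 3 → Fin s, Function.Injective i ∧ b = reflect i a) a b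

/-- the expected dimension at points with algebraically independent coordinates -/
theorem expDim {h : ℕ} {v : Fin h → ℕ} (hv : PackedTail v) {P : Fin h → Fin 2 → ℂ}
    (hP : AlgebraicIndependent ℚ (fun ij : Fin h × Fin 2 => P ij.1 ij.2)) (d : ℕ) :
    Pool.Agent.H932R3.ExpDim ℂ v P d := by
  obtain ⟨n, M, T, H, hn, hcard, hM, hT, hTH, hroom, hsum⟩ := hv
  obtain ⟨F, hF, hF'⟩ := Pool.Agent.U605.ST.expDim_packed v hn hM hcard hT hTH hroom hsum
  exact hF' P (fun h0 => hF (hP.eq_zero_of_aeval_eq_zero F h0)) d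

/-- no curve with a packed tail is negative -/
theorem no_neg {h : ℕ} {w : Fin h → ℕ} (hw : PackedTail w) {P : Fin h → Fin 2 → ℂ}
    (hP : AlgebraicIndependent ℚ (fun ij : Fin h × Fin 2 => P ij.1 ij.2)) {d : ℕ}
    {C : MvPolynomial (Fin 3) ℂ} (hC : Curve P C d w) : 0 ≤ inter d w d w := by
  by_contra hneg
  push Not at hneg
  obtain ⟨n, M, T, H, hn, hcard, hM, -, -, -, hsum⟩ := id hw
  have hle := Pool.Agent.U605.ST.inter_le
    (Pool.Agent.U605.ST.chi_pos (expDim hw hP d) hC fun i => le_rfl)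
  by_cases hne : MinusOne P C d w
  · have hnR : (36 : ℝ) ≤ n := by exact_mod_cast hn
    have hs : 0 ≤ √(n : ℝ) := Real.sqrt_nonneg _
    have hM0 : 0 < M := by
      by_contra hcon
      have h0 : M = 0 := by omega
      subst h0
      simp only [Nat.cast_zero, mul_zero] at hM
      linarith
    refine Pool.Agent.U605.ST.not_minus_one hn hM0 hcard (hsum.trans ?_) hne.self hne.canonical
    have hMR : (0 : ℝ) ≤ M := Nat.cast_nonneg _
    nlinarith
  · have hh : 36 ≤ h := by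
      have h1 := (Finset.univ.filter fun i => w i = M).card_le_univ
      rw [hcard, Fintype.card_fin] at h1
      omega
    obtain ⟨r, rfl⟩ : ∃ r, h = r + 4 := ⟨h - 4, by omega⟩
    obtain ⟨h1, h2, h3⟩ := SH.curve_iff.1 hC
    have hne' : ¬ (SH.ip d w d w = -1 ∧ SH.kk d w = 1) := fun h0 =>
      hne ⟨hC, by rw [SH.inter_eq, h0.1], by rw [SH.interK_eq, h0.2]⟩
    rw [SH.inter_eq] at hneg hle
    rw [SH.interK_eq] at hle
    obtain ⟨b0, -⟩ := Pool.Agent.R355.CanDeg.main hP ⟨⟨C, h1, h2, h3⟩, hne'⟩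
      (k := -SH.ip d w d w) (κ := -SH.kk d w) (by ring) (by linarith) (by ring)
    linarith

/-- the inequality for smaller vectors with a packed tail -/
theorem bound {h : ℕ} {v u : Fin h → ℕ} (hv : PackedTail v) (hvu : ∀ i, v i ≤ u i)
    {P : Fin h → Fin 2 → ℂ}
    (hP : AlgebraicIndependent ℚ (fun ij : Fin h × Fin 2 => P ij.1 ij.2)) {e : ℕ}
    {G : MvPolynomial (Fin 3) ℂ} (hG : Curve P G e u) :
    ∑ i, v i * (v i + 1) ≤ e * (e + 3) := by
  have h1 := Pool.Agent.U605.ST.chi_pos (expDim hv hP e) hG hvu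
  have h2 : ∀ m : ℕ, (m + 1).choose 2 * 2 = m * (m + 1) := by
    intro m
    rw [Nat.choose_two_right, Nat.add_sub_cancel, Nat.div_mul_cancel
      (by rw [mul_comm]; exact (Nat.even_mul_succ_self m).two_dvd)]
    ring
  have h3 := h2 (e + 1)
  have h4 : (∑ i, (v i + 1).choose 2) * 2 = ∑ i, v i * (v i + 1) := by
    rw [Finset.sum_mul]
    exact Finset.sum_congr rfl fun i _ => h2 (v i)
  rw [← h4]
  have h5 : (e + 1) * (e + 1 + 1) = e * (e + 3) + 2 := by ring
  rw [h5] at h3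
  have h6 : (e + 1 + 1).choose 2 = (e + 2).choose 2 := rfl
  rw [h6] at h3
  omega

theorem result (h : ℕ) :
    ∃ Z : ℕ → MvPolynomial (Fin h × Fin 2) ℂ, (∀ k, Z k ≠ 0) ∧
      ∀ P : Fin h → Fin 2 → ℂ,
        (∀ k, MvPolynomial.eval (fun ij : Fin h × Fin 2 => P ij.1 ij.2) (Z k) ≠ 0) →
        ∀ (d : ℕ) (w : Fin h → ℕ) (C : MvPolynomial (Fin 3) ℂ), Curve P C d w →
          (∀ (e : ℕ) (u : Fin h → ℕ),
            Carries ((d : ℤ), fun l => (w l : ℤ)) ((e : ℤ), fun l => (u l : ℤ)) → PackedTail u →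
              0 ≤ inter d w d w ∧ interK d w ≤ inter d w d w) ∧
          (inter d w d w < 0 → ¬ MinusOne P C d w →
            ∀ b : ℤ × (Fin h → ℤ), Carries ((d : ℤ), fun l => (w l : ℤ)) b →
              ∃ (e : ℕ) (u : Fin h → ℕ) (G : MvPolynomial (Fin 3) ℂ),
                b = ((e : ℤ), fun l => (u l : ℤ)) ∧ Curve P G e u ∧ ¬ PackedTail u ∧
                ∀ v : Fin h → ℕ, PackedTail v → (∀ i, v i ≤ u i) →
                  ∑ i, v i * (v i + 1) ≤ e * (e + 3)) := by
  obtain ⟨Z, hZ, hh⟩ := SH.exists_fam (Fin h × Fin 2)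
  refine ⟨Z, hZ, fun P hP0 d w C hC => ?_⟩
  have hP := (hh _).1 hP0
  obtain ⟨h1, h2, h3⟩ := SH.curve_iff.1 hC
  refine ⟨fun e u hc hu => ?_, fun hneg hne b hb => ?_⟩
  · have hc' : Pool.Agent.TH442.NF.Ch (Pool.Agent.TH442.NF.cls d w)
        (Pool.Agent.TH442.NF.cls e u) := hc
    obtain ⟨i1, i2⟩ := hc'.inv
    have i1' : SH.ip e u e u = SH.ip d w d w := i1
    have i2' : SH.kk e u = SH.kk d w := i2
    by_cases hne : MinusOne P C d w
    · exfalso
      obtain ⟨n, M, T, H, hn, hcard, hM, -, -, -, hsum⟩ := id hu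
      have hnR : (36 : ℝ) ≤ n := by exact_mod_cast hn
      have hs : 0 ≤ √(n : ℝ) := Real.sqrt_nonneg _
      have hM0 : 0 < M := by
        by_contra hcon
        have h0 : M = 0 := by omega
        subst h0
        simp only [Nat.cast_zero, mul_zero] at hM
        linarith
      refine Pool.Agent.U605.ST.not_minus_one hn hM0 hcard (hsum.trans ?_)
        (by rw [SH.inter_eq, i1', ← SH.inter_eq]; exact hne.self)
        (by rw [SH.interK_eq, i2', ← SH.interK_eq]; exact hne.canonical)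
      have hMR : (0 : ℝ) ≤ M := Nat.cast_nonneg _
      nlinarith
    · have hne' : ¬ (SH.ip d w d w = -1 ∧ SH.kk d w = 1) := fun h0 =>
        hne ⟨hC, by rw [SH.inter_eq, h0.1], by rw [SH.interK_eq, h0.2]⟩
      obtain ⟨e', u', heq, ⟨⟨G, g1, g2, g3⟩, -⟩, -⟩ :=
        Pool.Agent.R355.NegOrb.Irr.orbit hP ⟨⟨C, h1, h2, h3⟩, hne'⟩ hc
      have he : e' = e := by
        have h9 : (e : ℤ) = e' := congrArg Prod.fst heq
        exact_mod_cast h9.symm
      have hu' : u' = u := by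
        funext l
        have h9 : (u l : ℤ) = u' l := congrFun (congrArg Prod.snd heq) l
        exact_mod_cast h9.symm
      subst he hu'
      have hG : Curve P G e' u' := SH.curve_iff.2 ⟨g1, g2, g3⟩
      have h4 := no_neg hu hP hG
      have h5 := Pool.Agent.U605.ST.inter_le
        (Pool.Agent.U605.ST.chi_pos (expDim hu hP e') hG fun i => le_rfl)
      rw [SH.inter_eq, i1'] at h4 h5
      rw [SH.interK_eq, i2'] at h5
      rw [SH.inter_eq, SH.interK_eq]
      exact ⟨h4, h5⟩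
  · have hne' : ¬ (SH.ip d w d w = -1 ∧ SH.kk d w = 1) := fun h0 =>
      hne ⟨hC, by rw [SH.inter_eq, h0.1], by rw [SH.interK_eq, h0.2]⟩
    obtain ⟨e, u, rfl, ⟨⟨G, g1, g2, g3⟩, -⟩, hip⟩ :=
      Pool.Agent.R355.NegOrb.Irr.orbit hP ⟨⟨C, h1, h2, h3⟩, hne'⟩ hb
    have hG : Curve P G e u := SH.curve_iff.2 ⟨g1, g2, g3⟩
    refine ⟨e, u, G, rfl, hG, fun hu => ?_, fun v hv hvu => bound hv hvu hP hG⟩
    have h4 := no_neg hu hP hG
    rw [SH.inter_eq] at h4 hneg
    rw [hip] at h4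
    linarith

end Pool.Agent.Results.MP_3c83d0_ag.PackedTailOrbits
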